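import Pool.Agent.Helper95.TT.St

/-!
# Project TT (MP_6090f9_nt), module A3: primes in a quadratic extension
-/

set_option autoImplicit false

namespace Pool.Agent.Helper19.TT

open Pool.Agent.Helper95.TT
open NumberField IsDedekindDomain Polynomial Filter Topology
open scoped Classical

noncomputable section

section main

variable {k L : Type} [Field k] [NumberField k] [Field L] [NumberField L] [Algebra k L]

/-- restriction of primes -/
private def pi_A3 (k : Type) {L : Type} [Field k] [NumberField k] [Field L] [NumberField L]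
    [Algebra k L] (w : Pr L) : Pr k := HeightOneSpectrum.under (𝓞 k) w

private theorem lies_A3 (w : Pr L) : w.asIdeal.LiesOver (pi_A3 k w).asIdeal := ⟨rfl⟩

private theorem mem_pi_A3 (w : Pr L) (x : 𝓞 k) :
    x ∈ (pi_A3 k w).asIdeal ↔ algebraMap (𝓞 k) (𝓞 L) x ∈ w.asIdeal := Iff.rfl

/-- local degree -/
private def dg_A3 (k : Type) {L : Type} [Field k] [NumberField k] [Field L] [NumberField L]
    [Algebra k L] (w : Pr L) : ℕ := w.asIdeal.ramificationIdx (𝓞 k) * w.asIdeal.inertiaDeg (𝓞 k)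

private theorem f_pos_A3 (w : Pr L) : 0 < w.asIdeal.inertiaDeg (𝓞 k) :=
  Ideal.inertiaDeg_pos _ _

private theorem e_pos_A3 (w : Pr L) : 0 < w.asIdeal.ramificationIdx (𝓞 k) :=
  Ideal.ramificationIdx_pos _ _

private theorem q_pow_A3 (w : Pr L) :
    q (pi_A3 k w) ^ (w.asIdeal.inertiaDeg (𝓞 k)) = q w := by
  have := lies_A3 (k := k) w
  exact Ideal.absNorm_pow_inertiaDeg (pi_A3 k w).asIdeal w.asIdeal

private theorem fib_fin_A3 (v : Pr k) : {w : Pr L | pi_A3 k w = v}.Finite := by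
  have h1 : Set.InjOn (fun w : Pr L => w.asIdeal) {w : Pr L | pi_A3 k w = v} := by
    intro w _ w' _ h
    exact HeightOneSpectrum.ext h
  refine Set.Finite.of_finite_image ?_ h1
  refine (IsDedekindDomain.primesOver_finite v.asIdeal (𝓞 L)).subset ?_
  rintro _ ⟨w, hw, rfl⟩
  refine ⟨w.isPrime, ?_⟩
  have h2 := lies_A3 (k := k) w
  rw [show pi_A3 k w = v from hw] at h2
  exact h2

private theorem fib_sum_A3 (hdeg : Module.finrank k L = 2) (v : Pr k) (S : Finset (Pr L))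
    (hS : ∀ w, w ∈ S ↔ pi_A3 k w = v) : ∑ w ∈ S, dg_A3 k w = 2 := by
  have hfin : Module.finrank (𝓞 k) (𝓞 L) = 2 := by
    rw [← IsFractionRing.finrank_eq (𝓞 k) k (𝓞 L) L]
    exact hdeg
  have h1 := Ideal.sum_ramification_inertia_eq_finrank v.asIdeal (𝓞 L)
  rw [hfin] at h1
  rw [← h1]
  refine Finset.sum_bij (fun w hw => ⟨w.asIdeal, w.isPrime, ?_⟩) ?_ ?_ ?_ ?_
  · have h2 := lies_A3 (k := k) w
    rw [(hS w).1 hw] at h2
    exact h2
  · intro w hw
    exact Finset.mem_univ _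
  · intro w hw w' hw' h
    exact HeightOneSpectrum.ext (congrArg Subtype.val h)
  · rintro ⟨Q, hQp, hQl⟩ _
    have hQb : Q ≠ ⊥ := Ideal.ne_bot_of_mem_primesOver v.ne_bot ⟨hQp, hQl⟩
    refine ⟨⟨Q, hQp, hQb⟩, ?_, rfl⟩
    rw [hS]
    apply HeightOneSpectrum.ext
    exact hQl.over.symm
  · intro w hw
    rfl

private theorem fib_le_A3 (hdeg : Module.finrank k L = 2) (v : Pr k) (S : Finset (Pr L))
    (hS : ∀ w ∈ S, pi_A3 k w = v) : ∑ w ∈ S, dg_A3 k w ≤ 2 := by
  have hf := fib_fin_A3 (L := L) v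
  have h1 := fib_sum_A3 hdeg v hf.toFinset (fun w => by simp)
  rw [← h1]
  refine Finset.sum_le_sum_of_subset fun w hw => ?_
  rw [Set.Finite.mem_toFinset]
  exact hS w hw

private theorem fib_ne_A3 (hdeg : Module.finrank k L = 2) (v : Pr k) :
    ∃ w : Pr L, pi_A3 k w = v := by
  by_contra h
  push Not at h
  have h1 := fib_sum_A3 (L := L) hdeg v ∅ (fun w => by simp [h w])
  simp at h1

/-- the conjugate prime -/
private theorem conj_A3 {E : 𝓞 k} {θ : 𝓞 L} (σ : 𝓞 L →ₐ[𝓞 k] 𝓞 L) (hσ : σ θ = -θ)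
    {v : Pr k} (hv : 2 * E ∉ v.asIdeal) {b : 𝓞 k} (hb : b ^ 2 - E ∈ v.asIdeal) {w : Pr L}
    (hw : pi_A3 k w = v) (hθw : θ - algebraMap (𝓞 k) (𝓞 L) b ∈ w.asIdeal) :
    ∃ w₂ : Pr L, pi_A3 k w₂ = v ∧ w₂ ≠ w := by
  have hc : ∀ x : 𝓞 k, algebraMap (𝓞 k) (𝓞 L) x ∈ w.asIdeal.comap (σ : 𝓞 L →+* 𝓞 L) ↔
      x ∈ v.asIdeal := by
    intro x
    rw [Ideal.mem_comap, ← hw, mem_pi_A3]
    have : (σ : 𝓞 L →+* 𝓞 L) (algebraMap (𝓞 k) (𝓞 L) x) = algebraMap (𝓞 k) (𝓞 L) x :=
      σ.commutes x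
    rw [this]
  have hne : w.asIdeal.comap (σ : 𝓞 L →+* 𝓞 L) ≠ ⊥ := by
    intro h0
    apply v.ne_bot
    rw [eq_bot_iff]
    intro x hx
    have h1 := (hc x).2 hx
    rw [h0, Ideal.mem_bot] at h1
    rw [Ideal.mem_bot]
    exact (FaithfulSMul.algebraMap_injective (𝓞 k) (𝓞 L)) (by rw [h1, map_zero])
  let w₂ : Pr L := ⟨w.asIdeal.comap (σ : 𝓞 L →+* 𝓞 L), Ideal.IsPrime.comap _, hne⟩
  refine ⟨w₂, ?_, ?_⟩
  · apply HeightOneSpectrum.ext
    ext x
    exact hc x
  · intro he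
    have h1 : θ + algebraMap (𝓞 k) (𝓞 L) b ∈ w₂.asIdeal := by
      change (σ : 𝓞 L →+* 𝓞 L) (θ + algebraMap (𝓞 k) (𝓞 L) b) ∈ w.asIdeal
      have h2 : (σ : 𝓞 L →+* 𝓞 L) (θ + algebraMap (𝓞 k) (𝓞 L) b) =
          -(θ - algebraMap (𝓞 k) (𝓞 L) b) := by
        have h3 : (σ : 𝓞 L →+* 𝓞 L) (θ + algebraMap (𝓞 k) (𝓞 L) b) =
            σ θ + σ (algebraMap (𝓞 k) (𝓞 L) b) := map_add σ _ _
        rw [h3, hσ, σ.commutes]
        ring
      rw [h2]
      exact neg_mem hθw
    rw [he] at h1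
    have h4 : algebraMap (𝓞 k) (𝓞 L) (2 * b) ∈ w.asIdeal := by
      have h5 : algebraMap (𝓞 k) (𝓞 L) (2 * b) = (θ + algebraMap (𝓞 k) (𝓞 L) b) -
          (θ - algebraMap (𝓞 k) (𝓞 L) b) := by
        rw [map_mul, map_ofNat]
        ring
      rw [h5]
      exact sub_mem h1 hθw
    rw [← mem_pi_A3, hw] at h4
    rcases v.isPrime.mem_or_mem h4 with h5 | h5
    · exact hv (Ideal.mul_mem_right _ _ h5)
    · have h6 : E ∈ v.asIdeal := by
        have h7 : E = b * b - (b ^ 2 - E) := by ring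
        rw [h7]
        exact sub_mem (Ideal.mul_mem_left _ _ h5) hb
      exact hv (Ideal.mul_mem_left _ _ h6)

private theorem card_A3 (w : Pr L) : q w = Nat.card (𝓞 L ⧸ w.asIdeal) := rfl

private theorem q_ne_A3 (w : Pr L) : q w ≠ 0 := by
  unfold q
  rw [Ne, Ideal.absNorm_eq_zero_iff]
  exact w.ne_bot

/-- residue degree one gives a representative -/
private theorem rep_A3 (w : Pr L) (h : w.asIdeal.inertiaDeg (𝓞 k) = 1) (θ : 𝓞 L) :
    ∃ a : 𝓞 k, θ - algebraMap (𝓞 k) (𝓞 L) a ∈ w.asIdeal := by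
  have h1 := q_pow_A3 (k := k) w
  rw [h, pow_one, card_A3, card_A3] at h1
  have := lies_A3 (k := k) w
  have : (pi_A3 k w).asIdeal.IsPrime := (pi_A3 k w).isPrime
  have : w.asIdeal.IsPrime := w.isPrime
  have : Finite (𝓞 L ⧸ w.asIdeal) := by
    refine Nat.finite_of_card_ne_zero ?_
    rw [← card_A3]
    exact q_ne_A3 w
  let g : (𝓞 k ⧸ (pi_A3 k w).asIdeal) →+* (𝓞 L ⧸ w.asIdeal) :=
    Ideal.quotientMap w.asIdeal (algebraMap (𝓞 k) (𝓞 L)) le_rfl
  have hg : Function.Injective g := Ideal.quotientMap_injective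
  have hb : Function.Bijective g := hg.bijective_of_nat_card_le (by rw [h1])
  obtain ⟨x, hx⟩ := hb.2 (Ideal.Quotient.mk w.asIdeal θ)
  obtain ⟨a, rfl⟩ := Ideal.Quotient.mk_surjective x
  refine ⟨a, ?_⟩
  rw [Ideal.quotientMap_mk] at hx
  rw [← Ideal.Quotient.eq]
  exact hx.symm

/-- the main part of A3 for a given quadratic extension -/
private theorem main_A3 (hdeg : Module.finrank k L = 2) (E : 𝓞 k) (θ : 𝓞 L)
    (hθ : θ ^ 2 = algebraMap (𝓞 k) (𝓞 L) E) (σ : 𝓞 L →ₐ[𝓞 k] 𝓞 L) (hσ : σ θ = -θ) :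
    ∃ (π : Pr L → Pr k),
    (∀ w, q (π w) ≤ q w) ∧
    (∀ v, {w | π w = v}.Finite ∧ {w | π w = v}.ncard ≤ 2) ∧
    (∀ v : Pr k, 2 * E ∉ v.asIdeal → (∃ a : 𝓞 k, a ^ 2 - E ∈ v.asIdeal) →
      ∃ w₁ w₂, w₁ ≠ w₂ ∧ {w | π w = v} = {w₁, w₂} ∧ q w₁ = q v ∧ q w₂ = q v) ∧
    (∀ v : Pr k, 2 * E ∉ v.asIdeal → (¬ ∃ a : 𝓞 k, a ^ 2 - E ∈ v.asIdeal) →
      ∃ w, {w | π w = v} = {w} ∧ q w = q v ^ 2) := by
  have hd1 : ∀ w : Pr L, w.asIdeal.inertiaDeg (𝓞 k) ≤ dg_A3 k w := by
    intro w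
    unfold dg_A3
    exact Nat.le_mul_of_pos_left _ (e_pos_A3 w)
  have hprod : ∀ b : 𝓞 k, (θ - algebraMap (𝓞 k) (𝓞 L) b) * (θ + algebraMap (𝓞 k) (𝓞 L) b) =
      -algebraMap (𝓞 k) (𝓞 L) (b ^ 2 - E) := by
    intro b
    rw [map_sub, map_pow, ← hθ]
    ring
  refine ⟨pi_A3 k, ?_, ?_, ?_, ?_⟩
  · intro w
    rw [← q_pow_A3 (k := k) w]
    exact Nat.le_self_pow (f_pos_A3 w).ne' _
  · intro v
    have hf := fib_fin_A3 (L := L) v
    refine ⟨hf, ?_⟩
    rw [Set.ncard_eq_toFinset_card _ hf, Finset.card_eq_sum_ones]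
    refine le_trans (Finset.sum_le_sum fun w _ => ?_)
      (fib_sum_A3 hdeg v hf.toFinset (fun w => by simp)).le
    exact (f_pos_A3 w).trans_le (hd1 w)
  · rintro v hv ⟨a, ha⟩
    obtain ⟨w, hw⟩ := fib_ne_A3 (L := L) hdeg v
    have h1 : algebraMap (𝓞 k) (𝓞 L) (a ^ 2 - E) ∈ w.asIdeal := by
      rw [← mem_pi_A3, hw]
      exact ha
    have h2 : (θ - algebraMap (𝓞 k) (𝓞 L) a) * (θ + algebraMap (𝓞 k) (𝓞 L) a) ∈ w.asIdeal := by
      rw [hprod]
      exact neg_mem h1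
    obtain ⟨w₂, hw₂, hne⟩ : ∃ w₂ : Pr L, pi_A3 k w₂ = v ∧ w₂ ≠ w := by
      rcases w.isPrime.mem_or_mem h2 with h3 | h3
      · exact conj_A3 σ hσ hv ha hw h3
      · refine conj_A3 σ hσ hv (b := -a) ?_ hw ?_
        · rw [neg_sq]
          exact ha
        · rw [map_neg, sub_neg_eq_add]
          exact h3
    have hsum := fib_le_A3 hdeg v {w, w₂} (by
      intro x hx
      rw [Finset.mem_insert, Finset.mem_singleton] at hx
      rcases hx with rfl | rfl
      · exact hw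
      · exact hw₂)
    rw [Finset.sum_pair hne.symm] at hsum
    have e1 := hd1 w
    have e2 := hd1 w₂
    have e3 := f_pos_A3 (k := k) w
    have e4 := f_pos_A3 (k := k) w₂
    refine ⟨w, w₂, hne.symm, ?_, ?_, ?_⟩
    · ext x
      rw [Set.mem_ofPred_eq, Set.mem_insert_iff, Set.mem_singleton_iff]
      constructor
      · intro hx
        by_contra hno
        push Not at hno
        have hsum3 := fib_le_A3 hdeg v {x, w, w₂} (by
          intro y hy
          rw [Finset.mem_insert, Finset.mem_insert, Finset.mem_singleton] at hy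
          rcases hy with rfl | rfl | rfl
          · exact hx
          · exact hw
          · exact hw₂)
        rw [Finset.sum_insert (by
          rw [Finset.mem_insert, Finset.mem_singleton, not_or]
          exact hno), Finset.sum_pair hne.symm] at hsum3
        have e5 := hd1 x
        have e6 := f_pos_A3 (k := k) x
        omega
      · rintro (rfl | rfl)
        · exact hw
        · exact hw₂
    · have e7 : w.asIdeal.inertiaDeg (𝓞 k) = 1 := by omega
      have e8 := q_pow_A3 (k := k) w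
      rw [e7, pow_one, hw] at e8
      exact e8.symm
    · have e7 : w₂.asIdeal.inertiaDeg (𝓞 k) = 1 := by omega
      have e8 := q_pow_A3 (k := k) w₂
      rw [e7, pow_one, hw₂] at e8
      exact e8.symm
  · intro v hv hno
    obtain ⟨w, hw⟩ := fib_ne_A3 (L := L) hdeg v
    have hf2 : ∀ x : Pr L, pi_A3 k x = v → 2 ≤ x.asIdeal.inertiaDeg (𝓞 k) := by
      intro x hx
      have h0 := f_pos_A3 (k := k) x
      by_contra hlt
      have h1 : x.asIdeal.inertiaDeg (𝓞 k) = 1 := by omega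
      obtain ⟨a, ha⟩ := rep_A3 x h1 θ
      refine hno ⟨a, ?_⟩
      have h2 : (θ - algebraMap (𝓞 k) (𝓞 L) a) * (θ + algebraMap (𝓞 k) (𝓞 L) a) ∈ x.asIdeal :=
        Ideal.mul_mem_right _ _ ha
      rw [hprod] at h2
      have h3 : algebraMap (𝓞 k) (𝓞 L) (a ^ 2 - E) ∈ x.asIdeal := neg_mem_iff.1 h2
      rw [← mem_pi_A3, hx] at h3
      exact h3
    have hfib : ∀ x : Pr L, x ∈ ({w} : Finset (Pr L)) ↔ pi_A3 k x = v := by
      intro x
      rw [Finset.mem_singleton]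
      constructor
      · rintro rfl
        exact hw
      · intro hx
        by_contra hne
        have hsum := fib_le_A3 hdeg v {x, w} (by
          intro y hy
          rw [Finset.mem_insert, Finset.mem_singleton] at hy
          rcases hy with rfl | rfl
          · exact hx
          · exact hw)
        rw [Finset.sum_pair hne] at hsum
        have e1 := hd1 x
        have e2 := hd1 w
        have e3 := hf2 x hx
        have e4 := hf2 w hw
        omega
    refine ⟨w, ?_, ?_⟩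
    · ext x
      rw [Set.mem_ofPred_eq, Set.mem_singleton_iff, ← hfib x, Finset.mem_singleton]
    · have h5 := fib_sum_A3 hdeg v {w} hfib
      rw [Finset.sum_singleton] at h5
      have e2 := hd1 w
      have e4 := hf2 w hw
      have e7 : w.asIdeal.inertiaDeg (𝓞 k) = 2 := by omega
      have e8 := q_pow_A3 (k := k) w
      rw [e7, hw] at e8
      exact e8.symm

end main

theorem hA3 : StA3 := by
  intro k _ _ E hE
  set e : k := algebraMap (𝓞 k) k E with he
  have hirr : Irreducible (X ^ 2 - C e : k[X]) := by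
    refine X_pow_sub_C_irreducible_of_prime Nat.prime_two fun b hb => hE ?_
    exact ⟨b, by rw [← hb]; ring⟩
  have hfact : Fact (Irreducible (X ^ 2 - C e : k[X])) := ⟨hirr⟩
  let L := AdjoinRoot (X ^ 2 - C e : k[X])
  have hne : (X ^ 2 - C e : k[X]) ≠ 0 := hirr.ne_zero
  have i1 : Module.Finite k L := (AdjoinRoot.powerBasis hne).finite
  have i2 : CharZero L := charZero_of_injective_algebraMap (algebraMap k L).injective
  have i3 : Module.Finite ℚ L := Module.Finite.trans k L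
  have i4 : NumberField L := { }
  have hdeg : Module.finrank k L = 2 := by
    rw [(AdjoinRoot.powerBasis hne).finrank, AdjoinRoot.powerBasis_dim, natDegree_X_pow_sub_C]
  have hroot : (AdjoinRoot.root (X ^ 2 - C e : k[X]) : L) ^ 2 = algebraMap k L e := by
    have h := AdjoinRoot.eval₂_root (X ^ 2 - C e : k[X])
    simp only [eval₂_sub, eval₂_X_pow, eval₂_C] at h
    exact sub_eq_zero.1 h
  have hint : IsIntegral ℤ (AdjoinRoot.root (X ^ 2 - C e : k[X]) : L) := by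
    refine IsIntegral.of_pow (n := 2) (by norm_num) ?_
    rw [hroot]
    exact (E.isIntegral_coe).map (algebraMap k L).toIntAlgHom
  let θ : 𝓞 L := ⟨AdjoinRoot.root (X ^ 2 - C e : k[X]), hint⟩
  have hθ : θ ^ 2 = algebraMap (𝓞 k) (𝓞 L) E := by
    apply RingOfIntegers.ext
    exact hroot
  have hlift : (X ^ 2 - C e : k[X]).eval₂ (Algebra.ofId k L)
      (-AdjoinRoot.root (X ^ 2 - C e : k[X])) = 0 := by
    simp only [eval₂_sub, eval₂_X_pow, eval₂_C, neg_sq, hroot]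
    exact sub_self _
  let f0 : L →ₐ[k] L := AdjoinRoot.liftAlgHom (X ^ 2 - C e : k[X]) (Algebra.ofId k L)
    (-AdjoinRoot.root (X ^ 2 - C e : k[X])) hlift
  let σ : 𝓞 L →ₐ[𝓞 k] 𝓞 L := RingOfIntegers.mapAlgHom f0
  have hσ : σ θ = -θ := by
    apply RingOfIntegers.ext
    change f0 (AdjoinRoot.root (X ^ 2 - C e : k[X])) = _
    exact AdjoinRoot.liftAlgHom_root _ (Algebra.ofId k L) _ hlift
  obtain ⟨π, h1, h2, h3, h4⟩ := main_A3 hdeg E θ hθ σ hσ
  exact ⟨L, inferInstance, inferInstance, π, h1, h2, h3, h4⟩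

end

end Pool.Agent.Helper19.TT
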